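import Mathlib
import Pool.Agent.MP_983df8_al.ch.Final

namespace Pool.Agent.Results.MP_983df8_al.FourHall

open Pool.Agent.MP_983df8_al

theorem result (π : Set ℕ) (G : Type*) [Group G] [Finite G] (H : Subgroup G)
    (hD : IsD π G) (hF : Factors π G) (hH : IsHall π H) (hS : Group.IsSolvable H ∨ HP π H) :
    ∃ x y z : G, OPi π G = H ⊓ conjBy H x ⊓ conjBy H y ⊓ conjBy H z :=
  main_fac isChar_lie CH.kn hD hH hS hF

end Pool.Agent.Results.MP_983df8_al.FourHall
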